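import Pool.Agent.Lib.MP_841d01_co.DensD

namespace Pool.Agent.Results.MP_841d01_co.BoundedRatio

open Trib

/-- For every `x`, `P(x) ≤ 2 (N(x) + O(x)) + 15 √x` and `N(x) ≤ 8 (P(x) + O(x)) + 234 x^(3/4)`. So, if
there is no `O`-position, then `1/2 - ε ≤ N(x)/P(x) ≤ 8 + ε` for every `ε > 0` and all large `x`. -/
theorem result :
    (∀ x : ℕ, (cnt false x : ℝ) ≤ 2 * (cnt true x + cntO x) + 15 * Real.sqrt x ∧
      (cnt true x : ℝ) ≤ 8 * (cnt false x + cntO x) + 234 * (x : ℝ) ^ (3 / 4 : ℝ)) ∧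
    ((∀ n, ¬ Draw n) → ∀ ε : ℝ, 0 < ε → ∃ X : ℕ, ∀ x : ℕ, X ≤ x →
      1 / 2 - ε ≤ (cnt true x : ℝ) / cnt false x ∧ (cnt true x : ℝ) / cnt false x ≤ 8 + ε) :=
  ⟨fun x => ⟨P_le x, N_le x⟩, fun h ε hε => ratio h ε hε⟩

end Pool.Agent.Results.MP_841d01_co.BoundedRatio
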