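import Pool.Agent.Lib.MP_841d01_co.DensH

namespace Pool.Agent.Results.MP_841d01_co.DensityComparison

open Trib Filter Topology

/-- The upper and lower densities of the `P`- and `N`-positions: the lower and the upper density of
`P` are at most those of `N`, and the upper density of `N` is at most three times that of `P`. So
both upper densities are positive unless the `O`-positions have density `1`; and if there is no
`O`-position and `N(x)/P(x)` converges, then the limit is in `[1, 3]`. -/
theorem result :
    (lowD (cnt false) ≤ lowD (cnt true) ∧ upD (cnt false) ≤ upD (cnt true) ∧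
      upD (cnt true) ≤ 3 * upD (cnt false)) ∧
    ((1 - lowD cntO) / 4 ≤ upD (cnt false) ∧ (1 - lowD cntO) / 2 ≤ upD (cnt true)) ∧
    ((∀ n, ¬ Draw n) → ∀ L : ℝ,
      Tendsto (fun x : ℕ => (cnt true x : ℝ) / cnt false x) atTop (𝓝 L) → 1 ≤ L ∧ L ≤ 3) := by
  have h1 := upD_P_le
  have h2 := upD_N_le
  have h3 := total_dens
  exact ⟨⟨lowD_P_le, h1, h2⟩, ⟨by linarith, by linarith⟩, limit_range⟩

end Pool.Agent.Results.MP_841d01_co.DensityComparison
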