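import Pool.Agent.Lib.MP_841d01_co.DrawFinal

namespace Pool.Agent.Results.MP_841d01_co.DrawsAbound

open Trib

open Classical in
/-- Draws of Tribulations are not sporadic: if there is an `O`-position then the number of the
`O`-positions up to `x` is at least `√x exp (-K (log x) ^ β)`, `β = log₂ φ = 0.694...`, for some
`K > 0` and all large `x`. -/
theorem result : (∃ o, Draw o) → ∃ K : ℝ, 0 < K ∧ ∃ X : ℕ, ∀ x : ℕ, X ≤ x →
    Real.sqrt x * Real.exp (-K * Real.log x ^ Real.logb 2 Real.goldenRatio) ≤ cntO x :=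
  fun ⟨_, ho⟩ => draws_sqrt ho

end Pool.Agent.Results.MP_841d01_co.DrawsAbound
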