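import Pool.Agent.Lib.MP_841d01_co.Final

namespace Pool.Agent.Results.MP_841d01_co.OutcomeCounts

/-- Both outcome classes of Tribulations have at least `x exp (-C (log x) ^ β)` elements up to `x`,
where `β = log₂ φ = 0.694...` and `φ` is the golden ratio. -/
theorem result : ∃ C : ℝ, 0 < C ∧ ∀ x : ℕ, 2 ≤ x →
    (x : ℝ) * Real.exp (-C * Real.log x ^ Real.logb 2 Real.goldenRatio) ≤ Trib.cnt false x ∧
    (x : ℝ) * Real.exp (-C * Real.log x ^ Real.logb 2 Real.goldenRatio) ≤ Trib.cnt true x :=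
  Trib.final

end Pool.Agent.Results.MP_841d01_co.OutcomeCounts
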